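import Mathlib

namespace Pool.Agent.MP_a04191_co

/-- The clique complex of `G` is a weak `(d-1)`-pseudomanifold: every maximal clique has exactly
`d` vertices, and the common neighbourhood of every clique with `d - 1` vertices consists of two
non-adjacent vertices. -/
def IsWeakPM {V : Type} (d : ℕ) (G : SimpleGraph V) : Prop :=
  (∀ s : Finset V, Maximal (fun t : Finset V => G.IsClique (t : Set V)) s → s.card = d) ∧
  (∀ s : Finset V, G.IsNClique (d - 1) s →
    ∃ u v : V, u ≠ v ∧ ¬ G.Adj u v ∧ {w : V | ∀ x ∈ s, G.Adj x w} = {u, v})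

end Pool.Agent.MP_a04191_co
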