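import Pool.Agent.MP_a04191_co.Geo

namespace Pool.Agent.MP_a04191_co

open Finset

/-- integer inner product -/
def ip {m : ℕ} (u v : Fin m → ℤ) : ℤ := ∑ k, u k * v k

theorem ip_add_left {m : ℕ} (u v w : Fin m → ℤ) : ip (u + v) w = ip u w + ip v w := by
  simp [ip, add_mul, Finset.sum_add_distrib]

theorem ip_zero_left {m : ℕ} (w : Fin m → ℤ) : ip 0 w = 0 := by
  simp [ip]

theorem geom_sum_le (M : ℕ) :
    ∑ v ∈ Finset.Icc (-(M : ℤ)) M, (1 / 2 : ℝ) ^ v.natAbs ≤ 3 := by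
  have : ∑ v ∈ Finset.Icc (-(M : ℤ)) M, (1 / 2 : ℝ) ^ v.natAbs = 3 - 2 * (1 / 2) ^ M := by
    induction M with
    | zero => simp; norm_num
    | succ M ih =>
      have h : Finset.Icc (-((M + 1 : ℕ) : ℤ)) ((M + 1 : ℕ) : ℤ) =
          insert (-((M + 1 : ℕ) : ℤ)) (insert ((M + 1 : ℕ) : ℤ) (Finset.Icc (-(M : ℤ)) M)) := by
        ext v
        simp only [Finset.mem_Icc, Finset.mem_insert]
        omega
      rw [h, Finset.sum_insert, Finset.sum_insert, ih]
      · simp only [Int.natAbs_neg, Int.natAbs_natCast]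
        ring
      · simp only [Finset.mem_Icc]; omega
      · simp only [Finset.mem_Icc, Finset.mem_insert]; omega
  rw [this]
  have : (0 : ℝ) ≤ (1 / 2) ^ M := by positivity
  linarith

theorem natAbs_le_sq (a : ℤ) : (a.natAbs : ℤ) ≤ a * a := by
  rw [Int.natCast_natAbs]
  rcases le_or_gt 0 a with h | h
  · rw [abs_of_nonneg h]
    rcases h.eq_or_lt with h | h
    · subst h; simp
    · nlinarith
  · rw [abs_of_neg h]; nlinarith

/-- short vectors -/
noncomputable def short (m : ℕ) : Finset (Fin m → ℤ) :=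
  (Fintype.piFinset fun _ => Finset.Icc (-((3 * m : ℕ) : ℤ)) ((3 * m : ℕ) : ℤ)).filter
    (fun u => ip u u < 3 * m)

theorem mem_short {m : ℕ} (u : Fin m → ℤ) (hu : ip u u < 3 * m) : u ∈ short m := by
  refine Finset.mem_filter.2 ⟨Fintype.mem_piFinset.2 fun k => ?_, hu⟩
  have h1 : u k * u k ≤ ip u u :=
    Finset.single_le_sum (f := fun k => u k * u k) (fun k _ => mul_self_nonneg _)
      (Finset.mem_univ k)
  have h2 := natAbs_le_sq (u k)
  simp only [Finset.mem_Icc]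
  omega

theorem card_short (m : ℕ) : (short m).card ≤ 24 ^ m := by
  have h1 : ((short m).card : ℝ) ≤
      ∑ u ∈ Fintype.piFinset (fun _ : Fin m => Finset.Icc (-((3 * m : ℕ) : ℤ)) ((3 * m : ℕ) : ℤ)),
        (2 : ℝ) ^ (3 * m) * ∏ k, (1 / 2 : ℝ) ^ (u k).natAbs := by
    rw [Finset.card_eq_sum_ones, Nat.cast_sum]
    refine le_trans (Finset.sum_le_sum (g := fun u =>
      (2 : ℝ) ^ (3 * m) * ∏ k, (1 / 2 : ℝ) ^ (u k).natAbs) ?_)
      (Finset.sum_le_sum_of_subset_of_nonneg (Finset.filter_subset _ _) ?_)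
    · intro u hu
      have hu' := (Finset.mem_filter.1 hu).2
      have h2 : ∑ k, (u k).natAbs ≤ 3 * m := by
        have : ((∑ k, (u k).natAbs : ℕ) : ℤ) ≤ ip u u := by
          rw [Nat.cast_sum]
          exact Finset.sum_le_sum fun k _ => natAbs_le_sq _
        omega
      rw [Finset.prod_pow_eq_pow_sum]
      have h3 : (1 / 2 : ℝ) ^ (3 * m) ≤ (1 / 2) ^ (∑ k, (u k).natAbs) :=
        pow_le_pow_of_le_one (by norm_num) (by norm_num) h2
      have h4 : (2 : ℝ) ^ (3 * m) * (1 / 2) ^ (3 * m) = 1 := by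
        rw [← mul_pow]; norm_num
      have h5 : (0 : ℝ) ≤ 2 ^ (3 * m) := by positivity
      have := mul_le_mul_of_nonneg_left h3 h5
      push_cast
      linarith
    · intro u _ _
      positivity
  rw [← Finset.mul_sum, ← Finset.prod_univ_sum
    (fun _ : Fin m => Finset.Icc (-((3 * m : ℕ) : ℤ)) ((3 * m : ℕ) : ℤ))
    (fun _ v => (1 / 2 : ℝ) ^ v.natAbs)] at h1
  have h2 : ∏ _k : Fin m, ∑ v ∈ Finset.Icc (-((3 * m : ℕ) : ℤ)) ((3 * m : ℕ) : ℤ),
      (1 / 2 : ℝ) ^ v.natAbs ≤ 3 ^ m := by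
    rw [Finset.prod_const, Finset.card_univ, Fintype.card_fin]
    exact pow_le_pow_left₀ (Finset.sum_nonneg fun _ _ => by positivity) (geom_sum_le _) _
  have h3 : ((short m).card : ℝ) ≤ 24 ^ m := by
    refine h1.trans ((mul_le_mul_of_nonneg_left h2 (by positivity)).trans (le_of_eq ?_))
    rw [pow_mul, ← mul_pow]; norm_num
  exact_mod_cast h3

theorem exists_code (m : ℕ) (hm : 1 ≤ m) : ∃ p : ℕ, p.Prime ∧ p ≤ 2 * 48 ^ m ∧
    ∃ h : (Fin m → ℤ) →+ ZMod p, ∀ u, ip u u < 3 * m → h u = 0 → u = 0 := by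
  classical
  obtain ⟨p, hp, hp1, hp2⟩ := Nat.exists_prime_lt_and_le_two_mul (m * 24 ^ m) (by positivity)
  refine ⟨p, hp, ?_, ?_⟩
  · refine hp2.trans (Nat.mul_le_mul_left _ ?_)
    have : m ≤ 2 ^ m := Nat.lt_two_pow_self.le
    calc m * 24 ^ m ≤ 2 ^ m * 24 ^ m := Nat.mul_le_mul_right _ this
      _ = 48 ^ m := by rw [← mul_pow]; norm_num
  have : Fact p.Prime := ⟨hp⟩
  let P : (Fin m → ℤ) → Polynomial (ZMod p) := fun u =>
    ∑ k : Fin m, Polynomial.C (u k : ZMod p) * Polynomial.X ^ (k : ℕ)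
  have hdeg : ∀ u, (P u).natDegree ≤ m := by
    intro u
    refine Polynomial.natDegree_sum_le_of_forall_le _ _ fun k _ => ?_
    exact (Polynomial.natDegree_C_mul_X_pow_le _ _).trans k.2.le
  have hcoeff : ∀ u (k : Fin m), (P u).coeff k = (u k : ZMod p) := by
    intro u k
    simp only [P, Polynomial.finsetSum_coeff, Polynomial.coeff_C_mul_X_pow]
    rw [Finset.sum_eq_single k]
    · simp
    · intro j _ hj
      rw [if_neg]
      intro h
      exact hj (Fin.ext h.symm)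
    · simp
  let B : Finset (ZMod p) := (short m).biUnion fun u => (P u).roots.toFinset
  have hB : B.card < Fintype.card (ZMod p) := by
    rw [ZMod.card]
    refine lt_of_le_of_lt ?_ hp1
    refine Finset.card_biUnion_le.trans ?_
    refine (Finset.sum_le_card_nsmul _ _ m ?_).trans ?_
    · intro u _
      exact (Multiset.toFinset_card_le _).trans ((Polynomial.card_roots' _).trans (hdeg u))
    · rw [smul_eq_mul, mul_comm]
      exact Nat.mul_le_mul_left _ (card_short m)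
  obtain ⟨g, -, hg⟩ := Finset.exists_mem_notMem_of_card_lt_card
    (s := B) (t := Finset.univ) (by rwa [Finset.card_univ])
  refine ⟨{ toFun := fun u => ∑ k : Fin m, (u k : ZMod p) * g ^ (k : ℕ)
            map_zero' := by simp
            map_add' := by intro u v; simp [add_mul, Finset.sum_add_distrib] }, ?_⟩
  intro u hu h0
  by_contra hne
  apply hg
  refine Finset.mem_biUnion.2 ⟨u, mem_short u hu, ?_⟩
  rw [Multiset.mem_toFinset, Polynomial.mem_roots']
  constructor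
  · obtain ⟨k, hk⟩ := Function.ne_iff.1 hne
    intro hP
    have h1 := hcoeff u k
    rw [hP, Polynomial.coeff_zero] at h1
    have h2 := (ZMod.intCast_zmod_eq_zero_iff_dvd _ _).1 h1.symm
    have h3 := Finset.mem_Icc.1 (Fintype.mem_piFinset.1 (Finset.mem_filter.1 (mem_short u hu)).1 k)
    have h4 : 3 * m < p := by
      refine lt_of_le_of_lt ?_ hp1
      have : 24 ^ 1 ≤ 24 ^ m := Nat.pow_le_pow_right (by norm_num) hm
      nlinarith
    have h5 := Int.le_of_dvd (abs_pos.2 hk) ((dvd_abs _ _).2 h2)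
    have h6 : |u k| ≤ ((3 * m : ℕ) : ℤ) := abs_le.2 h3
    omega
  · simpa [P, Polynomial.IsRoot, Polynomial.eval_finsetSum] using h0

/-- the connection sets -/
def win (m C : ℕ) (j : ℤ) : Set (Fin m → ℤ) :=
  {y | (∀ k, 0 ≤ y k ∧ y k < 2 * C) ∧ j * m ≤ ip y y ∧ ip y y < (j + 1) * m}

/-- the homomorphisms fixed in a class -/
def phi {m p : ℕ} (h : (Fin m → ℤ) →+ ZMod p) (z : Fin m → ℤ) : (Fin m → ℤ) →+ ℤ × ZMod p where
  toFun x := (ip x z, h x)
  map_zero' := by simp [ip_zero_left]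
  map_add' x y := by simp [ip_add_left]

theorem win_unique {m p C : ℕ} (h : (Fin m → ℤ) →+ ZMod p)
    (hh : ∀ u, ip u u < 3 * m → h u = 0 → u = 0) (j₀ j₁ j₂ : ℤ) (z x₀ x₁ x₂ : Fin m → ℤ)
    (a₀ : x₁ + x₂ ∈ win m C j₀) (a₁ : x₀ + x₂ ∈ win m C j₁) (a₂ : x₀ + x₁ ∈ win m C j₂)
    (b₀ : z - x₀ ∈ win m C j₀) (b₁ : z - x₁ ∈ win m C j₁) (b₂ : z - x₂ ∈ win m C j₂)
    (e : phi h z x₀ + phi h z x₁ + phi h z x₂ = phi h z z) : x₀ + x₁ + x₂ = z := by
  have e1 : ip x₀ z + ip x₁ z + ip x₂ z = ip z z := congrArg Prod.fst e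
  have e2 : h x₀ + h x₁ + h x₂ = h z := congrArg Prod.snd e
  rw [← sub_eq_zero]
  apply hh
  · have key : ip (x₀ + x₁ + x₂ - z) (x₀ + x₁ + x₂ - z) =
        ip (x₁ + x₂) (x₁ + x₂) + ip (x₀ + x₂) (x₀ + x₂) + ip (x₀ + x₁) (x₀ + x₁) -
        ip (z - x₀) (z - x₀) - ip (z - x₁) (z - x₁) - ip (z - x₂) (z - x₂) -
        4 * (ip x₀ z + ip x₁ z + ip x₂ z - ip z z) := by
      simp only [ip, ← Finset.sum_add_distrib, ← Finset.sum_sub_distrib, Finset.mul_sum]
      refine Finset.sum_congr rfl fun k _ => ?_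
      simp only [Pi.add_apply, Pi.sub_apply]
      ring
    have := a₀.2.2
    have := a₁.2.2
    have := a₂.2.2
    have := b₀.2.1
    have := b₁.2.1
    have := b₂.2.1
    rw [key]
    linarith
  · rw [map_sub, map_add, map_add, e2, sub_self]

/-- the small box -/
noncomputable def box (m : ℕ) (a b : ℤ) : Finset (Fin m → ℤ) :=
  Fintype.piFinset fun _ => Finset.Ico a b

theorem card_box (m : ℕ) (a b : ℤ) (n : ℕ) (h : b = a + n) : (box m a b).card = n ^ m := by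
  simp [box, h]

theorem mem_box {m : ℕ} {a b : ℤ} {x : Fin m → ℤ} : x ∈ box m a b ↔ ∀ k, a ≤ x k ∧ x k < b := by
  simp [box]

theorem exists_windows (m C : ℕ) (hm : 1 ≤ m) (hC : 1 ≤ C) : ∃ j₀ j₁ j₂ : ℤ,
    ∃ Tr : Finset ((Fin m → ℤ) × (Fin m → ℤ) × (Fin m → ℤ)),
      C ^ (3 * m) ≤ (4 * C ^ 2) ^ 3 * Tr.card ∧
      ∀ x ∈ Tr, x.1 ∈ box m 0 C ∧ x.2.1 ∈ box m 0 C ∧ x.2.2 ∈ box m 0 C ∧
        x.2.1 + x.2.2 ∈ win m C j₀ ∧ x.1 + x.2.2 ∈ win m C j₁ ∧ x.1 + x.2.1 ∈ win m C j₂ := by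
  classical
  have hm' : (0 : ℤ) < m := by exact_mod_cast hm
  have key : ∀ x y : Fin m → ℤ, x ∈ box m 0 C → y ∈ box m 0 C →
      ip (x + y) (x + y) / m ∈ Finset.Ico (0 : ℤ) (4 * C ^ 2) ∧
        x + y ∈ win m C (ip (x + y) (x + y) / m) := by
    intro x y hx hy
    have h1 : ∀ k, 0 ≤ (x + y) k ∧ (x + y) k < 2 * C := by
      intro k
      have := mem_box.1 hx k
      have := mem_box.1 hy k
      simp only [Pi.add_apply]
      omega
    have h2 : 0 ≤ ip (x + y) (x + y) := Finset.sum_nonneg fun k _ => mul_self_nonneg _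
    have h3 : ip (x + y) (x + y) < 4 * C ^ 2 * m := by
      have : Nonempty (Fin m) := ⟨⟨0, hm⟩⟩
      calc ip (x + y) (x + y) < ∑ _k : Fin m, (4 * C ^ 2 : ℤ) := by
            refine Finset.sum_lt_sum_of_nonempty Finset.univ_nonempty fun k _ => ?_
            have := h1 k
            nlinarith
        _ = 4 * C ^ 2 * m := by simp; ring
    refine ⟨Finset.mem_Ico.2 ⟨Int.ediv_nonneg h2 hm'.le, Int.ediv_lt_of_lt_mul hm' h3⟩, h1,
      Int.ediv_mul_le _ hm'.ne', Int.lt_ediv_add_one_mul_self _ hm'⟩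
  let f : (Fin m → ℤ) × (Fin m → ℤ) × (Fin m → ℤ) → ℤ × ℤ × ℤ := fun x =>
    (ip (x.2.1 + x.2.2) (x.2.1 + x.2.2) / m, ip (x.1 + x.2.2) (x.1 + x.2.2) / m,
      ip (x.1 + x.2.1) (x.1 + x.2.1) / m)
  let s := box m 0 C ×ˢ box m 0 C ×ˢ box m 0 C
  let I := Finset.Ico (0 : ℤ) (4 * C ^ 2)
  let t := I ×ˢ I ×ˢ I
  have hI : I.card = 4 * C ^ 2 := by
    simp only [I, Int.card_Ico, sub_zero]
    have : (4 * (C : ℤ) ^ 2) = ((4 * C ^ 2 : ℕ) : ℤ) := by push_cast; ring
    rw [this, Int.toNat_natCast]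
  have ht : t.card = (4 * C ^ 2) ^ 3 := by
    simp only [t, Finset.card_product, hI]; ring
  have hs : s.card = C ^ (3 * m) := by
    simp only [s, Finset.card_product, card_box m 0 C C (by simp)]; ring
  have hmaps : ∀ x ∈ s, f x ∈ t := by
    intro x hx
    simp only [s, Finset.mem_product] at hx
    simp only [t, f, Finset.mem_product]
    exact ⟨(key _ _ hx.2.1 hx.2.2).1, (key _ _ hx.1 hx.2.2).1, (key _ _ hx.1 hx.2.1).1⟩
  have htne : t.Nonempty := by
    rw [← Finset.card_pos, ht]; positivity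
  obtain ⟨j, -, hj⟩ := Finset.exists_max_image t
    (fun j => (s.filter (fun x => f x = j)).card) htne
  refine ⟨j.1, j.2.1, j.2.2, s.filter (fun x => f x = j), ?_, ?_⟩
  · rw [← hs, Finset.card_eq_sum_card_fiberwise hmaps, ← ht, ← smul_eq_mul]
    exact Finset.sum_le_card_nsmul _ _ _ hj
  · intro x hx
    obtain ⟨hx1, hx2⟩ := Finset.mem_filter.1 hx
    simp only [s, Finset.mem_product] at hx1
    subst hx2
    exact ⟨hx1.1, hx1.2.1, hx1.2.2, (key _ _ hx1.2.1 hx1.2.2).2, (key _ _ hx1.1 hx1.2.2).2,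
      (key _ _ hx1.1 hx1.2.1).2⟩

end Pool.Agent.MP_a04191_co
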