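import Pool.Agent.MP_a04191_co.Struct

namespace Pool.Agent.MP_a04191_co

open Finset

/-- the transversal attached to a triangle -/
def fac {Λ A : Type} [AddCommGroup Λ] [AddCommGroup A] (φ : Λ → Λ →+ A) (x₀ x₁ x₂ : Λ) :
    Fin 4 → Λ × A × A × A :=
  ![(x₀, 0), (x₁, 0), (x₂, 0),
    (x₀ + x₁ + x₂, φ (x₀ + x₁ + x₂) x₀, φ (x₀ + x₁ + x₂) x₁, φ (x₀ + x₁ + x₂) x₂)]

/-- the family of all transversals attached to triangles of a Cayley sum graph -/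
def geoF {Λ A : Type} [AddCommGroup Λ] [AddCommGroup A] (φ : Λ → Λ →+ A) (S₀ S₁ S₂ : Set Λ) :
    Set (Fin 4 → Λ × A × A × A) :=
  {y | ∃ x₀ x₁ x₂, x₁ + x₂ ∈ S₀ ∧ x₀ + x₂ ∈ S₁ ∧ x₀ + x₁ ∈ S₂ ∧ y = fac φ x₀ x₁ x₂}

section
variable {Λ A : Type} [AddCommGroup Λ] [AddCommGroup A] (φ : Λ → Λ →+ A) (S₀ S₁ S₂ : Set Λ)

theorem co01 {y : Fin 4 → Λ × A × A × A} (hy : y ∈ geoF φ S₀ S₁ S₂) :
    (y 0).1 + (y 1).1 ∈ S₂ := by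
  obtain ⟨x₀, x₁, x₂, h0, h1, h2, rfl⟩ := hy; exact h2

theorem co02 {y : Fin 4 → Λ × A × A × A} (hy : y ∈ geoF φ S₀ S₁ S₂) :
    (y 0).1 + (y 2).1 ∈ S₁ := by
  obtain ⟨x₀, x₁, x₂, h0, h1, h2, rfl⟩ := hy; exact h1

theorem co12 {y : Fin 4 → Λ × A × A × A} (hy : y ∈ geoF φ S₀ S₁ S₂) :
    (y 1).1 + (y 2).1 ∈ S₀ := by
  obtain ⟨x₀, x₁, x₂, h0, h1, h2, rfl⟩ := hy; exact h0

theorem co03 {y : Fin 4 → Λ × A × A × A} (hy : y ∈ geoF φ S₀ S₁ S₂) :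
    (y 3).1 - (y 0).1 ∈ S₀ ∧ (y 3).2.1 = φ (y 3).1 (y 0).1 := by
  obtain ⟨x₀, x₁, x₂, h0, h1, h2, rfl⟩ := hy
  refine ⟨?_, rfl⟩
  have : x₀ + x₁ + x₂ - x₀ = x₁ + x₂ := by abel
  change x₀ + x₁ + x₂ - x₀ ∈ S₀
  rwa [this]

theorem co13 {y : Fin 4 → Λ × A × A × A} (hy : y ∈ geoF φ S₀ S₁ S₂) :
    (y 3).1 - (y 1).1 ∈ S₁ ∧ (y 3).2.2.1 = φ (y 3).1 (y 1).1 := by
  obtain ⟨x₀, x₁, x₂, h0, h1, h2, rfl⟩ := hy
  refine ⟨?_, rfl⟩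
  have : x₀ + x₁ + x₂ - x₁ = x₀ + x₂ := by abel
  change x₀ + x₁ + x₂ - x₁ ∈ S₁
  rwa [this]

theorem co23 {y : Fin 4 → Λ × A × A × A} (hy : y ∈ geoF φ S₀ S₁ S₂) :
    (y 3).1 - (y 2).1 ∈ S₂ ∧ (y 3).2.2.2 = φ (y 3).1 (y 2).1 := by
  obtain ⟨x₀, x₁, x₂, h0, h1, h2, rfl⟩ := hy
  refine ⟨?_, rfl⟩
  have : x₀ + x₁ + x₂ - x₂ = x₀ + x₁ := by abel
  change x₀ + x₁ + x₂ - x₂ ∈ S₂
  rwa [this]

theorem co3 {y : Fin 4 → Λ × A × A × A} (hy : y ∈ geoF φ S₀ S₁ S₂) :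
    (y 3).2.1 + (y 3).2.2.1 + (y 3).2.2.2 = φ (y 3).1 (y 3).1 := by
  obtain ⟨x₀, x₁, x₂, h0, h1, h2, rfl⟩ := hy
  change φ (x₀ + x₁ + x₂) x₀ + φ (x₀ + x₁ + x₂) x₁ + φ (x₀ + x₁ + x₂) x₂ =
    φ (x₀ + x₁ + x₂) (x₀ + x₁ + x₂)
  rw [map_add, map_add]

theorem co0 {y : Fin 4 → Λ × A × A × A} (hy : y ∈ geoF φ S₀ S₁ S₂) : (y 0).2 = 0 := by
  obtain ⟨x₀, x₁, x₂, h0, h1, h2, rfl⟩ := hy; rfl

theorem co1 {y : Fin 4 → Λ × A × A × A} (hy : y ∈ geoF φ S₀ S₁ S₂) : (y 1).2 = 0 := by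
  obtain ⟨x₀, x₁, x₂, h0, h1, h2, rfl⟩ := hy; rfl

theorem co2 {y : Fin 4 → Λ × A × A × A} (hy : y ∈ geoF φ S₀ S₁ S₂) : (y 2).2 = 0 := by
  obtain ⟨x₀, x₁, x₂, h0, h1, h2, rfl⟩ := hy; rfl

theorem good_geo (hne : (geoF φ S₀ S₁ S₂).Nonempty)
    (hU : ∀ z x₀ x₁ x₂, x₁ + x₂ ∈ S₀ → x₀ + x₂ ∈ S₁ → x₀ + x₁ ∈ S₂ → z - x₀ ∈ S₀ → z - x₁ ∈ S₁ →
      z - x₂ ∈ S₂ → φ z x₀ + φ z x₁ + φ z x₂ = φ z z → x₀ + x₁ + x₂ = z) :
    Good (geoF φ S₀ S₁ S₂) := by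
  constructor
  · intro T x hx
    have small : ∀ i j, i ∈ T → j ∈ T → (∀ l ∈ T, l = i ∨ l = j) →
        ∃ y ∈ geoF φ S₀ S₁ S₂, ∀ l ∈ T, y l = x l := by
      intro i j hi hj hl
      obtain ⟨y, hy, h1, h2⟩ := hx i hi j hj
      refine ⟨y, hy, fun l hl' => ?_⟩
      rcases hl l hl' with rfl | rfl
      · exact h1
      · exact h2
    have a0 : 0 ∈ T → (x 0).2 = 0 := fun h => by
      obtain ⟨y, hy, h1, -⟩ := hx 0 h 0 h; rw [← h1]; exact co0 φ S₀ S₁ S₂ hy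
    have a1 : 1 ∈ T → (x 1).2 = 0 := fun h => by
      obtain ⟨y, hy, h1, -⟩ := hx 1 h 1 h; rw [← h1]; exact co1 φ S₀ S₁ S₂ hy
    have a2 : 2 ∈ T → (x 2).2 = 0 := fun h => by
      obtain ⟨y, hy, h1, -⟩ := hx 2 h 2 h; rw [← h1]; exact co2 φ S₀ S₁ S₂ hy
    have a3 : 3 ∈ T → (x 3).2.1 + (x 3).2.2.1 + (x 3).2.2.2 = φ (x 3).1 (x 3).1 := fun h => by
      obtain ⟨y, hy, h1, -⟩ := hx 3 h 3 h; rw [← h1]; exact co3 φ S₀ S₁ S₂ hy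
    have a01 : 0 ∈ T → 1 ∈ T → (x 0).1 + (x 1).1 ∈ S₂ := fun h h' => by
      obtain ⟨y, hy, h1, h2⟩ := hx 0 h 1 h'; rw [← h1, ← h2]; exact co01 φ S₀ S₁ S₂ hy
    have a02 : 0 ∈ T → 2 ∈ T → (x 0).1 + (x 2).1 ∈ S₁ := fun h h' => by
      obtain ⟨y, hy, h1, h2⟩ := hx 0 h 2 h'; rw [← h1, ← h2]; exact co02 φ S₀ S₁ S₂ hy
    have a12 : 1 ∈ T → 2 ∈ T → (x 1).1 + (x 2).1 ∈ S₀ := fun h h' => by
      obtain ⟨y, hy, h1, h2⟩ := hx 1 h 2 h'; rw [← h1, ← h2]; exact co12 φ S₀ S₁ S₂ hy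
    have a03 : 0 ∈ T → 3 ∈ T → (x 3).1 - (x 0).1 ∈ S₀ ∧ (x 3).2.1 = φ (x 3).1 (x 0).1 :=
      fun h h' => by
        obtain ⟨y, hy, h1, h2⟩ := hx 0 h 3 h'; rw [← h1, ← h2]; exact co03 φ S₀ S₁ S₂ hy
    have a13 : 1 ∈ T → 3 ∈ T → (x 3).1 - (x 1).1 ∈ S₁ ∧ (x 3).2.2.1 = φ (x 3).1 (x 1).1 :=
      fun h h' => by
        obtain ⟨y, hy, h1, h2⟩ := hx 1 h 3 h'; rw [← h1, ← h2]; exact co13 φ S₀ S₁ S₂ hy
    have a23 : 2 ∈ T → 3 ∈ T → (x 3).1 - (x 2).1 ∈ S₂ ∧ (x 3).2.2.2 = φ (x 3).1 (x 2).1 :=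
      fun h h' => by
        obtain ⟨y, hy, h1, h2⟩ := hx 2 h 3 h'; rw [← h1, ← h2]; exact co23 φ S₀ S₁ S₂ hy
    -- a general way to finish
    have fin : ∀ x₀ x₁ x₂, x₁ + x₂ ∈ S₀ → x₀ + x₂ ∈ S₁ → x₀ + x₁ ∈ S₂ →
        (0 ∈ T → x₀ = (x 0).1) → (1 ∈ T → x₁ = (x 1).1) → (2 ∈ T → x₂ = (x 2).1) →
        (3 ∈ T → x₀ + x₁ + x₂ = (x 3).1 ∧ φ (x 3).1 x₀ = (x 3).2.1 ∧ φ (x 3).1 x₁ = (x 3).2.2.1 ∧
          φ (x 3).1 x₂ = (x 3).2.2.2) →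
        ∃ y ∈ geoF φ S₀ S₁ S₂, ∀ l ∈ T, y l = x l := by
      intro x₀ x₁ x₂ h0 h1 h2 e0 e1 e2 e3
      refine ⟨fac φ x₀ x₁ x₂, ⟨x₀, x₁, x₂, h0, h1, h2, rfl⟩, fun l hl => ?_⟩
      fin_cases l
      · exact Prod.ext (e0 hl) (a0 hl).symm
      · exact Prod.ext (e1 hl) (a1 hl).symm
      · exact Prod.ext (e2 hl) (a2 hl).symm
      · obtain ⟨f0, f1, f2, f3⟩ := e3 hl
        change (x₀ + x₁ + x₂, φ (x₀ + x₁ + x₂) x₀, φ (x₀ + x₁ + x₂) x₁, φ (x₀ + x₁ + x₂) x₂) = x 3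
        rw [f0, f1, f2, f3]
    have cs : ∀ l : Fin 4, l = 0 ∨ l = 1 ∨ l = 2 ∨ l = 3 := by decide
    by_cases h0 : 0 ∈ T <;> by_cases h1 : 1 ∈ T <;> by_cases h2 : 2 ∈ T <;> by_cases h3 : 3 ∈ T
    · refine fin _ _ _ (a12 h1 h2) (a02 h0 h2) (a01 h0 h1) (fun _ => rfl) (fun _ => rfl)
        (fun _ => rfl) (fun _ => ⟨?_, (a03 h0 h3).2.symm, (a13 h1 h3).2.symm, (a23 h2 h3).2.symm⟩)
      apply hU _ _ _ _ (a12 h1 h2) (a02 h0 h2) (a01 h0 h1) (a03 h0 h3).1 (a13 h1 h3).1 (a23 h2 h3).1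
      rw [← (a03 h0 h3).2, ← (a13 h1 h3).2, ← (a23 h2 h3).2, a3 h3]
    · exact fin _ _ _ (a12 h1 h2) (a02 h0 h2) (a01 h0 h1) (fun _ => rfl) (fun _ => rfl)
        (fun _ => rfl) (fun h => absurd h h3)
    · refine fin (x 0).1 (x 1).1 ((x 3).1 - (x 0).1 - (x 1).1) ?_ ?_ (a01 h0 h1) (fun _ => rfl)
        (fun _ => rfl) (fun h => absurd h h2)
        (fun _ => ⟨by abel, (a03 h0 h3).2.symm, (a13 h1 h3).2.symm, ?_⟩)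
      · convert (a03 h0 h3).1 using 1; abel
      · convert (a13 h1 h3).1 using 1; abel
      · rw [map_sub, map_sub, ← a3 h3, ← (a03 h0 h3).2, ← (a13 h1 h3).2]; abel
    · exact small 0 1 h0 h1 (fun l hl => by rcases cs l with rfl | rfl | rfl | rfl <;> simp_all)
    · refine fin (x 0).1 ((x 3).1 - (x 0).1 - (x 2).1) (x 2).1 ?_ (a02 h0 h2) ?_ (fun _ => rfl)
        (fun h => absurd h h1) (fun _ => rfl)
        (fun _ => ⟨by abel, (a03 h0 h3).2.symm, ?_, (a23 h2 h3).2.symm⟩)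
      · convert (a03 h0 h3).1 using 1; abel
      · convert (a23 h2 h3).1 using 1; abel
      · rw [map_sub, map_sub, ← a3 h3, ← (a03 h0 h3).2, ← (a23 h2 h3).2]; abel
    · exact small 0 2 h0 h2 (fun l hl => by rcases cs l with rfl | rfl | rfl | rfl <;> simp_all)
    · exact small 0 3 h0 h3 (fun l hl => by rcases cs l with rfl | rfl | rfl | rfl <;> simp_all)
    · exact small 0 0 h0 h0 (fun l hl => by rcases cs l with rfl | rfl | rfl | rfl <;> simp_all)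
    · refine fin ((x 3).1 - (x 1).1 - (x 2).1) (x 1).1 (x 2).1 (a12 h1 h2) ?_ ?_
        (fun h => absurd h h0) (fun _ => rfl) (fun _ => rfl)
        (fun _ => ⟨by abel, ?_, (a13 h1 h3).2.symm, (a23 h2 h3).2.symm⟩)
      · convert (a13 h1 h3).1 using 1; abel
      · convert (a23 h2 h3).1 using 1; abel
      · rw [map_sub, map_sub, ← a3 h3, ← (a13 h1 h3).2, ← (a23 h2 h3).2]; abel
    · exact small 1 2 h1 h2 (fun l hl => by rcases cs l with rfl | rfl | rfl | rfl <;> simp_all)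
    · exact small 1 3 h1 h3 (fun l hl => by rcases cs l with rfl | rfl | rfl | rfl <;> simp_all)
    · exact small 1 1 h1 h1 (fun l hl => by rcases cs l with rfl | rfl | rfl | rfl <;> simp_all)
    · exact small 2 3 h2 h3 (fun l hl => by rcases cs l with rfl | rfl | rfl | rfl <;> simp_all)
    · exact small 2 2 h2 h2 (fun l hl => by rcases cs l with rfl | rfl | rfl | rfl <;> simp_all)
    · exact small 3 3 h3 h3 (fun l hl => by rcases cs l with rfl | rfl | rfl | rfl <;> simp_all)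
    · obtain ⟨y, hy⟩ := hne
      exact ⟨y, hy, fun l hl => by rcases cs l with rfl | rfl | rfl | rfl <;> simp_all⟩
  · rintro y ⟨x₀, x₁, x₂, -, -, -, rfl⟩ y' ⟨x₀', x₁', x₂', -, -, -, rfl⟩ i hi
    have : x₀ = x₀' ∧ x₁ = x₁' ∧ x₂ = x₂' := by
      fin_cases i
      · have e1 : x₁ = x₁' := congrArg Prod.fst (hi 1 (by decide))
        have e2 : x₂ = x₂' := congrArg Prod.fst (hi 2 (by decide))
        have e3 : x₀ + x₁ + x₂ = x₀' + x₁' + x₂' := congrArg Prod.fst (hi 3 (by decide))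
        subst e1 e2
        exact ⟨by simpa using e3, rfl, rfl⟩
      · have e1 : x₀ = x₀' := congrArg Prod.fst (hi 0 (by decide))
        have e2 : x₂ = x₂' := congrArg Prod.fst (hi 2 (by decide))
        have e3 : x₀ + x₁ + x₂ = x₀' + x₁' + x₂' := congrArg Prod.fst (hi 3 (by decide))
        subst e1 e2
        exact ⟨rfl, by simpa using e3, rfl⟩
      · have e1 : x₀ = x₀' := congrArg Prod.fst (hi 0 (by decide))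
        have e2 : x₁ = x₁' := congrArg Prod.fst (hi 1 (by decide))
        have e3 : x₀ + x₁ + x₂ = x₀' + x₁' + x₂' := congrArg Prod.fst (hi 3 (by decide))
        subst e1 e2
        exact ⟨rfl, rfl, by simpa using e3⟩
      · exact ⟨congrArg Prod.fst (hi 0 (by decide)), congrArg Prod.fst (hi 1 (by decide)),
          congrArg Prod.fst (hi 2 (by decide))⟩
    obtain ⟨rfl, rfl, rfl⟩ := this
    rfl

end

end Pool.Agent.MP_a04191_co
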