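import Pool.Agent.MP_a04191_co.Euc

namespace Pool.Agent.MP_a04191_co

open Finset

theorem card_pi_ite {κ α : Type} [Fintype κ] [DecidableEq κ] [Zero α] (P : κ → Prop)
    [DecidablePred P] (B : Finset α) (b N : ℕ) (hb : 1 ≤ b) (hB : B.card ≤ b)
    (hN : (Finset.univ.filter P).card ≤ N) :
    (Fintype.piFinset fun c => if P c then B else {0}).card ≤ b ^ N := by
  rw [Fintype.card_piFinset]
  calc ∏ c, (if P c then B else {0}).card ≤ ∏ c, (if P c then b else 1) := by
        refine Finset.prod_le_prod' fun c _ => ?_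
        split_ifs
        · exact hB
        · simp
    _ = b ^ (Finset.univ.filter P).card := by
        rw [Finset.prod_ite]; simp
    _ ≤ b ^ N := Nat.pow_le_pow_right hb hN

/-- the index injection of a component -/
def emb {k e : ℕ} (c : ZMod k × ZMod e) : Fin 4 → ZMod k ⊕ ZMod e :=
  ![Sum.inl c.1, Sum.inl (c.1 + 1), Sum.inl (c.1 + 2), Sum.inr c.2]

theorem emb_inj {k e : ℕ} (hk : 3 ≤ k) (c : ZMod k × ZMod e) : Function.Injective (emb c) := by
  have h1 : (1 : ZMod k) ≠ 0 := by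
    intro h
    have : ((1 : ℕ) : ZMod k) = 0 := by simpa using h
    have := Nat.le_of_dvd (by norm_num) ((ZMod.natCast_eq_zero_iff _ _).1 this)
    omega
  have h2 : (2 : ZMod k) ≠ 0 := by
    intro h
    have : ((2 : ℕ) : ZMod k) = 0 := by simpa using h
    have := Nat.le_of_dvd (by norm_num) ((ZMod.natCast_eq_zero_iff _ _).1 this)
    omega
  have h3 : (1 : ZMod k) ≠ 2 := by
    intro h
    apply h1
    have : (1 : ZMod k) + 1 = 0 + 1 + (2 - 1) := by ring
    linear_combination -h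
  intro i j h
  fin_cases i <;> fin_cases j <;> simp_all [emb, h3.symm]

theorem mem_range_emb_inl {k e : ℕ} (c : ZMod k × ZMod e) (i : ZMod k) :
    Sum.inl i ∈ Set.range (emb c) ↔ (c.1 = i ∨ c.1 + 1 = i ∨ c.1 + 2 = i) := by
  constructor
  · rintro ⟨j, hj⟩
    fin_cases j <;> simp_all [emb]
  · rintro (h | h | h)
    · exact ⟨0, by simp [emb, h]⟩
    · exact ⟨1, by simp [emb, h]⟩
    · exact ⟨2, by simp [emb, h]⟩

theorem mem_range_emb_inr {k e : ℕ} (c : ZMod k × ZMod e) (l : ZMod e) :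
    Sum.inr l ∈ Set.range (emb c) ↔ c.2 = l := by
  constructor
  · rintro ⟨j, hj⟩
    fin_cases j <;> simp_all [emb]
  · rintro h
    exact ⟨3, by simp [emb, h]⟩

theorem ncard_cliqueSet_le {V : Type} [Fintype V] (G : SimpleGraph V) (k : ℕ) :
    (G.cliqueSet k).ncard ≤ Fintype.card V ^ k := by
  classical
  have : G.cliqueSet k ⊆ (Finset.univ.powersetCard k : Finset (Finset V)) := by
    intro s hs
    simp only [Finset.mem_coe, Finset.mem_powersetCard]
    exact ⟨Finset.subset_univ _, hs.2⟩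
  refine (Set.ncard_le_ncard this (Finset.finite_toSet _)).trans ?_
  rw [Set.ncard_coe_finset, Finset.card_powersetCard, Finset.card_univ]
  exact Nat.choose_le_pow _ _

theorem geo_bounds {m p C : ℕ} (h : (Fin m → ℤ) →+ ZMod p) (j₀ j₁ j₂ : ℤ)
    (y : Fin 4 → (Fin m → ℤ) × (ℤ × ZMod p) × (ℤ × ZMod p) × (ℤ × ZMod p))
    (hy : y ∈ geoF (phi h) (win m C j₀) (win m C j₁) (win m C j₂)) :
    (∀ j : Fin 4, j ≠ 3 → (y j).1 ∈ box m (-C) (2 * C) ∧ (y j).2 = 0) ∧
    (y 3).1 ∈ box m (-(3 * C)) (6 * C) ∧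
    (y 3).2.1.1 ∈ Finset.Icc (-(12 * C ^ 2 * m : ℤ)) (12 * C ^ 2 * m) ∧
    (y 3).2.2.1.1 ∈ Finset.Icc (-(12 * C ^ 2 * m : ℤ)) (12 * C ^ 2 * m) ∧
    (y 3).2.2.2.1 ∈ Finset.Icc (-(12 * C ^ 2 * m : ℤ)) (12 * C ^ 2 * m) := by
  obtain ⟨x₀, x₁, x₂, h0, h1, h2, rfl⟩ := hy
  have hb : x₀ ∈ box m (-C) (2 * C) ∧ x₁ ∈ box m (-C) (2 * C) ∧ x₂ ∈ box m (-C) (2 * C) := by
    refine ⟨mem_box.2 fun k => ?_, mem_box.2 fun k => ?_, mem_box.2 fun k => ?_⟩ <;>
    · have a0 := h0.1 k
      have a1 := h1.1 k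
      have a2 := h2.1 k
      simp only [Pi.add_apply] at a0 a1 a2
      omega
  have hz : x₀ + x₁ + x₂ ∈ box m (-(3 * C)) (6 * C) := by
    refine mem_box.2 fun k => ?_
    have a0 := mem_box.1 hb.1 k
    have a1 := mem_box.1 hb.2.1 k
    have a2 := mem_box.1 hb.2.2 k
    simp only [Pi.add_apply]
    omega
  have hip : ∀ x ∈ box m (-C) (2 * C),
      ip x (x₀ + x₁ + x₂) ∈ Finset.Icc (-(12 * C ^ 2 * m : ℤ)) (12 * C ^ 2 * m) := by
    intro x hx
    rw [Finset.mem_Icc, ← abs_le]
    refine (Finset.abs_sum_le_sum_abs _ _).trans ?_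
    calc ∑ k, |x k * (x₀ + x₁ + x₂) k| ≤ ∑ _k : Fin m, (12 * C ^ 2 : ℤ) := by
          refine Finset.sum_le_sum fun k _ => ?_
          have a0 := mem_box.1 hx k
          have a1 := mem_box.1 hz k
          rw [abs_mul]
          have b0 : |x k| ≤ 2 * C := abs_le.2 ⟨by omega, by omega⟩
          have b1 : |(x₀ + x₁ + x₂) k| ≤ 6 * C := abs_le.2 ⟨by omega, by omega⟩
          calc |x k| * |(x₀ + x₁ + x₂) k| ≤ (2 * C) * (6 * C) :=
                mul_le_mul b0 b1 (abs_nonneg _) (by positivity)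
            _ = 12 * C ^ 2 := by ring
      _ = 12 * C ^ 2 * m := by simp; ring
  refine ⟨?_, hz, hip _ hb.1, hip _ hb.2.1, hip _ hb.2.2⟩
  intro j hj
  fin_cases j
  · exact ⟨hb.1, rfl⟩
  · exact ⟨hb.2.1, rfl⟩
  · exact ⟨hb.2.2, rfl⟩
  · exact absurd rfl hj

theorem construction (k e m C : ℕ) (hk : 3 ≤ k) (he : 2 ≤ e) (hm : 1 ≤ m) (hC : 1 ≤ C)
    (hCe : (9 * 96 ^ 3 * 3 ^ (3 * e) * C) ^ k ≤ (3 * C) ^ (3 * e)) :
    ∃ (V : Type) (_ : Fintype V) (G : SimpleGraph V), IsWeakPM (k + e) G ∧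
      Fintype.card V ≤ 2 * (k + e) * ((50 * C ^ 2) ^ (3 * k) * (3 * C) ^ (3 * e * m)) ∧
      ((3 * C) ^ (3 * e * m)) ^ k ≤ (4 * C ^ 2) ^ (3 * k * e) * (G.cliqueSet k).ncard := by
  classical
  have : NeZero k := ⟨by omega⟩
  have : NeZero e := ⟨by omega⟩
  have : Fact (1 < e) := ⟨by omega⟩
  obtain ⟨p, hp, hple, h, hh⟩ := exists_code m hm
  have : NeZero p := ⟨hp.ne_zero⟩
  obtain ⟨j₀, j₁, j₂, Tr, hTr, hTr'⟩ := exists_windows m C hm hC
  set W := 3 ^ (3 * e * m) with hW
  have : NeZero W := ⟨by positivity⟩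
  let F₀ := geoF (phi h) (win m C j₀) (win m C j₁) (win m C j₂)
  have hfac : ∀ x ∈ Tr, fac (phi h) x.1 x.2.1 x.2.2 ∈ F₀ := fun x hx =>
    ⟨x.1, x.2.1, x.2.2, (hTr' x hx).2.2.2.1, (hTr' x hx).2.2.2.2.1, (hTr' x hx).2.2.2.2.2, rfl⟩
  have hTne : Tr.Nonempty := by
    rw [← Finset.card_pos]
    have : 0 < C ^ (3 * m) := by positivity
    by_contra h0
    have h0 : Tr.card = 0 := by omega
    rw [h0] at hTr
    omega
  have g₀ : Good F₀ := good_geo _ _ _ _ (by
    obtain ⟨x, hx⟩ := hTne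
    exact ⟨_, hfac x hx⟩) (win_unique h hh j₀ j₁ j₂)
  let F₁ := prodF (fun c : ZMod k × ZMod e => reF (emb c) F₀)
  have g₁ : Good F₁ := good_prod _ fun c => good_re _ (emb_inj hk c) _ g₀
  let cen : (ZMod k × ZMod e → (Fin m → ℤ) × (ℤ × ZMod p) × (ℤ × ZMod p) × (ℤ × ZMod p)) → Prop :=
    fun u => ∀ c, (u c).1 ∈ box m 0 C
  let F₂ := labF (Fin W) cen F₁
  have g₂ : Good F₂ := good_lab _ _ _ g₁
  have hcard : Fintype.card (ZMod k ⊕ ZMod e) = k + e := by simp [ZMod.card]
  -- size bounds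
  let Bb : Finset ((Fin m → ℤ) × (ℤ × ZMod p) × (ℤ × ZMod p) × (ℤ × ZMod p)) :=
    box m (-C) (2 * C) ×ˢ {0}
  let Bs : Finset ((Fin m → ℤ) × (ℤ × ZMod p) × (ℤ × ZMod p) × (ℤ × ZMod p)) :=
    box m 0 C ×ˢ {0}
  let J : Finset (ℤ × ZMod p) :=
    Finset.Icc (-(12 * C ^ 2 * m : ℤ)) (12 * C ^ 2 * m) ×ˢ Finset.univ
  let Z : Finset ((Fin m → ℤ) × (ℤ × ZMod p) × (ℤ × ZMod p) × (ℤ × ZMod p)) :=
    box m (-(3 * C)) (6 * C) ×ˢ J ×ˢ J ×ˢ J
  let D : ZMod k ⊕ ZMod e → Finset ((ZMod k × ZMod e →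
      (Fin m → ℤ) × (ℤ × ZMod p) × (ℤ × ZMod p) × (ℤ × ZMod p)) × (ZMod k → Fin W)) := fun i =>
    match i with
    | Sum.inl i =>
      (Fintype.piFinset fun c => if c.1 = i ∨ c.1 + 1 = i ∨ c.1 + 2 = i then Bb else {0}) ×ˢ {0} ∪
      (Fintype.piFinset fun c => if c.1 = i ∨ c.1 + 1 = i ∨ c.1 + 2 = i then Bs else {0}) ×ˢ
        (Finset.univ.image fun a : Fin W => fun _ => a)
    | Sum.inr l => (Fintype.piFinset fun c => if c.2 = l then Z else {0}) ×ˢ Finset.univ
  have hD : ∀ y ∈ F₂, ∀ i, y i ∈ D i := by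
    rintro w ⟨y, hy, a, rfl⟩ i
    cases i with
    | inl i =>
      have hb : ∀ c : ZMod k × ZMod e, (c.1 = i ∨ c.1 + 1 = i ∨ c.1 + 2 = i) →
          (y (Sum.inl i) c).1 ∈ box m (-C) (2 * C) ∧ (y (Sum.inl i) c).2 = 0 := by
        intro c hc
        obtain ⟨j, hj⟩ := (mem_range_emb_inl c i).2 hc
        have := (geo_bounds h j₀ j₁ j₂ _ (hy c).1).1 j (by
          rintro rfl
          simp [emb] at hj)
        simpa only [hj] using this
      have hz : ∀ c : ZMod k × ZMod e, ¬ (c.1 = i ∨ c.1 + 1 = i ∨ c.1 + 2 = i) →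
          y (Sum.inl i) c = 0 := fun c hc =>
        (hy c).2 _ (fun h => hc ((mem_range_emb_inl c i).1 h))
      simp only [D, lab, Finset.mem_union, Finset.mem_product, Fintype.mem_piFinset]
      by_cases hcen : cen (y (Sum.inl i))
      · right
        refine ⟨fun c => ?_, Finset.mem_image.2 ⟨_, Finset.mem_univ _, rfl⟩⟩
        split_ifs with hc
        · exact Finset.mem_product.2 ⟨hcen c, Finset.mem_singleton.2 (hb c hc).2⟩
        · exact Finset.mem_singleton.2 (hz c hc)
      · left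
        refine ⟨fun c => ?_, ?_⟩
        · split_ifs with hc
          · exact Finset.mem_product.2 ⟨(hb c hc).1, Finset.mem_singleton.2 (hb c hc).2⟩
          · exact Finset.mem_singleton.2 (hz c hc)
        · rw [Finset.mem_singleton]
          funext _
          simp [hcen]
    | inr l =>
      simp only [D, lab, Finset.mem_product, Fintype.mem_piFinset, Finset.mem_univ, and_true]
      intro c
      split_ifs with hc
      · have := (geo_bounds h j₀ j₁ j₂ _ (hy c).1).2
        have e3 : emb c 3 = Sum.inr l := by simp [emb, hc]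
        simp only [e3] at this
        simp only [Z, J, Finset.mem_product, Finset.mem_univ, and_true]
        exact this
      · exact Finset.mem_singleton.2
          ((hy c).2 _ (fun h => hc ((mem_range_emb_inr c l).1 h)))
  have hM : ∀ i, (D i).card ≤ (50 * C ^ 2) ^ (3 * k) * (3 * C) ^ (3 * e * m) := by
    intro i
    cases i with
    | inl i =>
      have hf : (Finset.univ.filter fun c : ZMod k × ZMod e =>
          c.1 = i ∨ c.1 + 1 = i ∨ c.1 + 2 = i).card ≤ 3 * e := by
        have : (Finset.univ.filter fun c : ZMod k × ZMod e =>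
            c.1 = i ∨ c.1 + 1 = i ∨ c.1 + 2 = i) ⊆
            ({i, i - 1, i - 2} : Finset (ZMod k)) ×ˢ Finset.univ := by
          intro c hc
          simp only [Finset.mem_filter, Finset.mem_univ, true_and] at hc
          simp only [Finset.mem_product, Finset.mem_insert, Finset.mem_singleton, Finset.mem_univ,
            and_true]
          rcases hc with h | h | h
          · left; exact h
          · right; left; rw [← h]; ring
          · right; right; rw [← h]; ring
        refine (Finset.card_le_card this).trans ?_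
        rw [Finset.card_product, Finset.card_univ, ZMod.card]
        exact Nat.mul_le_mul_right _ Finset.card_le_three
      have h1 := card_pi_ite _ Bb ((3 * C) ^ m) (3 * e) (Nat.one_le_pow _ _ (by omega)) (by
        simp only [Bb, Finset.card_product, Finset.card_singleton, mul_one]
        exact (card_box m _ _ (3 * C) (by push_cast; ring)).le) hf
      have h2 := card_pi_ite _ Bs (C ^ m) (3 * e) (Nat.one_le_pow _ _ (by omega)) (by
        simp only [Bs, Finset.card_product, Finset.card_singleton, mul_one]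
        exact (card_box m _ _ C (by simp)).le) hf
      have h3 : (Finset.univ.image fun a : Fin W => fun _ : ZMod k => a).card ≤ W :=
        Finset.card_image_le.trans (by simp)
      refine (Finset.card_union_le _ _).trans ?_
      rw [Finset.card_product, Finset.card_product, Finset.card_singleton, mul_one]
      refine (Nat.add_le_add h1 (Nat.mul_le_mul h2 h3)).trans ?_
      have e1 : ((3 * C) ^ m) ^ (3 * e) = (3 * C) ^ (3 * e * m) := by
        rw [← pow_mul]; congr 1; ring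
      have e2 : (C ^ m) ^ (3 * e) * W = (3 * C) ^ (3 * e * m) := by
        rw [hW, mul_pow, ← pow_mul, mul_comm]; congr 2; ring
      rw [e1, e2, ← two_mul]
      refine Nat.mul_le_mul_right _ ?_
      calc 2 ≤ (50 * C ^ 2) ^ 1 := by nlinarith [Nat.one_le_pow 2 C hC]
        _ ≤ (50 * C ^ 2) ^ (3 * k) :=
          Nat.pow_le_pow_right (by positivity) (by omega)
    | inr l =>
      have hf : (Finset.univ.filter fun c : ZMod k × ZMod e => c.2 = l).card ≤ k := by
        have : (Finset.univ.filter fun c : ZMod k × ZMod e => c.2 = l) ⊆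
            Finset.univ ×ˢ {l} := by
          intro c hc
          exact Finset.mem_product.2
            ⟨Finset.mem_univ _, Finset.mem_singleton.2 (Finset.mem_filter.1 hc).2⟩
        refine (Finset.card_le_card this).trans ?_
        rw [Finset.card_product, Finset.card_univ, ZMod.card]
        simp
      have hJ : J.card ≤ 50 * C ^ 2 * 96 ^ m := by
        simp only [J, Finset.card_product, Int.card_Icc, Finset.card_univ, ZMod.card]
        have e1 : (12 * (C : ℤ) ^ 2 * m + 1 - -(12 * C ^ 2 * m)) = ((24 * C ^ 2 * m + 1 : ℕ) : ℤ) := by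
          push_cast; ring
        rw [e1, Int.toNat_natCast]
        have a1 : m ≤ 2 ^ m := Nat.lt_two_pow_self.le
        have a2 : 1 ≤ C ^ 2 := Nat.one_le_pow _ _ hC
        have a3 : 1 ≤ 2 ^ m := Nat.one_le_two_pow
        have a4 : 24 * C ^ 2 * m + 1 ≤ 25 * C ^ 2 * 2 ^ m := by nlinarith
        calc (24 * C ^ 2 * m + 1) * p ≤ (25 * C ^ 2 * 2 ^ m) * (2 * 48 ^ m) :=
              Nat.mul_le_mul a4 hple
          _ = 50 * C ^ 2 * 96 ^ m := by
              rw [show (96 : ℕ) = 2 * 48 by norm_num, mul_pow]; ring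
      have hZ : Z.card ≤ (9 * C) ^ m * (50 * C ^ 2 * 96 ^ m) ^ 3 := by
        simp only [Z, Finset.card_product]
        rw [card_box m _ _ (9 * C) (by push_cast; ring)]
        refine Nat.mul_le_mul_left _ ?_
        calc J.card * (J.card * J.card) = J.card ^ 3 := by ring
          _ ≤ _ := Nat.pow_le_pow_left hJ 3
      have h1 := card_pi_ite _ Z _ k (Nat.one_le_iff_ne_zero.2 (by positivity)) hZ hf
      simp only [D]
      rw [Finset.card_product, Finset.card_univ, Fintype.card_fun, Fintype.card_fin, ZMod.card]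
      refine (Nat.mul_le_mul_right _ h1).trans ?_
      have e1 : ((9 * C) ^ m * (50 * C ^ 2 * 96 ^ m) ^ 3) ^ k * W ^ k =
          (50 * C ^ 2) ^ (3 * k) * ((9 * 96 ^ 3 * 3 ^ (3 * e) * C) ^ k) ^ m := by
        rw [hW]
        simp only [mul_pow, ← pow_mul]
        ring
      rw [e1, pow_mul (3 * C) (3 * e) m]
      exact Nat.mul_le_mul_left _ (Nat.pow_le_pow_left hCe m)
  obtain ⟨hfin, hV⟩ := card_vtx_le F₂ D _ hD hM
  refine ⟨Vtx F₂, Fintype.ofFinite _, gr F₂, ?_, ?_, ?_⟩
  · rw [← hcard]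
    exact isWeakPM_gr F₂ g₂ (by omega)
  · rw [hcard, @Nat.card_eq_fintype_card _ (Fintype.ofFinite _)] at hV
    exact hV
  · let y : (ZMod k × ZMod e → Tr) → ZMod k ⊕ ZMod e → ZMod k × ZMod e →
        (Fin m → ℤ) × (ℤ × ZMod p) × (ℤ × ZMod p) × (ℤ × ZMod p) := fun T i c =>
      Function.extend (emb c) (fac (phi h) (T c).1.1 (T c).1.2.1 (T c).1.2.2) 0 i
    have hy : ∀ T, y T ∈ F₁ := fun T c =>
      extend_mem_reF _ (emb_inj hk c) _ _ (hfac _ (T c).2)
    have hye : ∀ T c j, y T (emb c j) c = fac (phi h) (T c).1.1 (T c).1.2.1 (T c).1.2.2 j :=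
      fun T c j => (emb_inj hk c).extend_apply _ _ _
    have hcen : ∀ T i, cen (y T (Sum.inl i)) := by
      intro T i c
      by_cases hc : Sum.inl i ∈ Set.range (emb c)
      · obtain ⟨j, hj⟩ := hc
        rw [← hj, hye]
        have := hTr' _ (T c).2
        fin_cases j
        · exact this.1
        · exact this.2.1
        · exact this.2.2.1
        · simp [emb] at hj
      · have h0 : y T (Sum.inl i) c = 0 := (hy T c).2 _ hc
        rw [h0]
        refine mem_box.2 fun k => ?_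
        simp only [Prod.fst_zero, Pi.zero_apply]
        omega
    have key := card_clique_ge (P := (ZMod k × ZMod e → Tr) × (ZMod k → Fin W)) F₂
      (fun q => lab cen (y q.1) q.2) (fun q => ⟨_, hy q.1, _, rfl⟩) (by
        rintro ⟨T, a⟩ ⟨T', a'⟩ hq
        have h1 : ∀ i, y T (Sum.inl i) = y T' (Sum.inl i) := fun i => congrArg Prod.fst (hq i)
        have h2 : a = a' := by
          funext i
          have := congrFun (congrArg Prod.snd (hq i)) i
          simpa [lab, hcen] using this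
        have h3 : T = T' := by
          funext c
          have b0 := congrFun (h1 c.1) c
          have b1 := congrFun (h1 (c.1 + 1)) c
          have b2 := congrFun (h1 (c.1 + 2)) c
          have c0 := (hye T c 0).symm.trans (b0.trans (hye T' c 0))
          have c1 := (hye T c 1).symm.trans (b1.trans (hye T' c 1))
          have c2 := (hye T c 2).symm.trans (b2.trans (hye T' c 2))
          have d0 := congrArg Prod.fst c0
          have d1 := congrArg Prod.fst c1
          have d2 := congrArg Prod.fst c2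
          exact Subtype.ext (Prod.ext d0 (Prod.ext d1 d2))
        rw [h2, h3])
    rw [ZMod.card] at key
    refine le_trans ?_ (Nat.mul_le_mul_left _ key)
    rw [Nat.card_eq_fintype_card, Fintype.card_prod, Fintype.card_fun, Fintype.card_fun,
      Fintype.card_prod, ZMod.card, ZMod.card, Fintype.card_fin, Fintype.card_coe]
    calc ((3 * C) ^ (3 * e * m)) ^ k = (C ^ (3 * m)) ^ (k * e) * W ^ k := by
          rw [hW]
          simp only [mul_pow, ← pow_mul]
          ring
      _ ≤ ((4 * C ^ 2) ^ 3 * Tr.card) ^ (k * e) * W ^ k :=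
          Nat.mul_le_mul_right _ (Nat.pow_le_pow_left hTr _)
      _ = _ := by
          rw [mul_pow, ← pow_mul, mul_assoc, mul_assoc]

theorem dense_examples (r : ℕ) (hr : 3 ≤ r) : ∃ R : ℕ, 0 < R ∧ ∀ n₀ : ℕ,
    ∃ (V : Type) (_ : Fintype V) (G : SimpleGraph V), IsWeakPM (2 * r) G ∧
      n₀ ≤ Fintype.card V ∧ Fintype.card V ^ (r + 1) ≤ R * (G.cliqueSet (r + 1)).ncard := by
  obtain ⟨e, rfl⟩ : ∃ e, r = e + 1 := ⟨r - 1, by omega⟩
  set k := e + 1 + 1 with hk
  set c := 9 * 96 ^ 3 * 3 ^ (3 * e) with hc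
  have hc0 : 0 < c := by positivity
  set C := c ^ k with hC
  have hC0 : 0 < C := by positivity
  have hCe : (c * C) ^ k ≤ (3 * C) ^ (3 * e) := by
    calc (c * C) ^ k = C ^ (k + 1) := by rw [mul_pow, ← hC]; ring
      _ ≤ C ^ (3 * e) := Nat.pow_le_pow_right hC0 (by omega)
      _ ≤ (3 * C) ^ (3 * e) := Nat.pow_le_pow_left (by omega) _
  set Q := (4 * C ^ 2) ^ (3 * k * e) with hQ
  have hQ0 : 0 < Q := by positivity
  set K := 2 * (k + e) * (50 * C ^ 2) ^ (3 * k) with hK
  refine ⟨K ^ k * Q, by positivity, fun n₀ => ?_⟩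
  obtain ⟨V, hV, G, h1, h2, h3⟩ := construction k e (Q * n₀ + 1) C (by omega) (by omega)
    (by omega) hC0 hCe
  set M := (3 * C) ^ (3 * e * (Q * n₀ + 1)) with hM
  refine ⟨V, hV, G, ?_, ?_, ?_⟩
  · rwa [show 2 * (e + 1) = k + e by omega]
  · have a1 := ncard_cliqueSet_le G k
    have a2 : M ^ k ≤ (Q * Fintype.card V) ^ k := by
      refine h3.trans ?_
      rw [← hQ, mul_pow Q]
      exact Nat.mul_le_mul (Nat.le_self_pow (by omega) Q) a1
    have a3 : M ≤ Q * Fintype.card V := (Nat.pow_le_pow_iff_left (by omega)).1 a2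
    have a4 : Q * n₀ ≤ M := by
      calc Q * n₀ ≤ 2 ^ (Q * n₀) := Nat.lt_two_pow_self.le
        _ ≤ (3 * C) ^ (Q * n₀) := Nat.pow_le_pow_left (by omega) _
        _ ≤ M := Nat.pow_le_pow_right (by omega)
          ((Nat.le_succ _).trans (Nat.le_mul_of_pos_left _ (by omega)))
    exact Nat.le_of_mul_le_mul_left (a4.trans a3) hQ0
  · calc Fintype.card V ^ k ≤ (K * M) ^ k := by
          refine Nat.pow_le_pow_left ?_ _
          rw [hK, mul_assoc]
          exact h2
      _ = K ^ k * M ^ k := mul_pow _ _ _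
      _ ≤ K ^ k * (Q * (G.cliqueSet k).ncard) := Nat.mul_le_mul_left _ h3
      _ = _ := by ring

end Pool.Agent.MP_a04191_co
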