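import Pool.Agent.MP_a04191_co.Defs

namespace Pool.Agent.MP_a04191_co

open Finset

/-- A family of transversals which is flag and has unique completion. -/
structure Good {ι α : Type} (F : Set (ι → α)) : Prop where
  flag : ∀ (T : Set ι) (x : ι → α), (∀ i ∈ T, ∀ j ∈ T, ∃ y ∈ F, y i = x i ∧ y j = x j) →
    ∃ y ∈ F, ∀ i ∈ T, y i = x i
  uniq : ∀ y ∈ F, ∀ y' ∈ F, ∀ i, (∀ j, j ≠ i → y j = y' j) → y i = y' i

/-- product of families -/
def prodF {ι α κ : Type} (F : κ → Set (ι → α)) : Set (ι → κ → α) :=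
  {y | ∀ c, (fun i => y i c) ∈ F c}

theorem good_prod {ι α κ : Type} (F : κ → Set (ι → α)) (h : ∀ c, Good (F c)) :
    Good (prodF F) := by
  constructor
  · intro T x hx
    have : ∀ c, ∃ y ∈ F c, ∀ i ∈ T, y i = x i c := by
      intro c
      apply (h c).flag T (fun i => x i c)
      intro i hi j hj
      obtain ⟨y, hy, h1, h2⟩ := hx i hi j hj
      exact ⟨fun i => y i c, hy c, by simp [h1], by simp [h2]⟩
    choose y hy hy' using this
    refine ⟨fun i c => y c i, fun c => hy c, ?_⟩
    intro i hi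
    funext c
    exact hy' c i hi
  · intro y hy y' hy' i hi
    funext c
    exact (h c).uniq _ (hy c) _ (hy' c) i (fun j hj => by simp [hi j hj])

/-- reindexing along an injection, with the value `0` outside the range -/
def reF {ι₀ ι α : Type} [Zero α] (f : ι₀ → ι) (F : Set (ι₀ → α)) : Set (ι → α) :=
  {y | (fun i => y (f i)) ∈ F ∧ ∀ i, i ∉ Set.range f → y i = 0}

theorem extend_mem_reF {ι₀ ι α : Type} [Zero α] (f : ι₀ → ι) (hf : Function.Injective f)
    (F : Set (ι₀ → α)) (y : ι₀ → α) (hy : y ∈ F) : Function.extend f y 0 ∈ reF f F := by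
  constructor
  · have : (fun i => Function.extend f y 0 (f i)) = y := by
      funext i; exact hf.extend_apply _ _ _
    rw [this]; exact hy
  · intro i hi
    rw [Function.extend_apply' _ _ _ (by simpa using hi)]
    rfl

theorem good_re {ι₀ ι α : Type} [Zero α] (f : ι₀ → ι) (hf : Function.Injective f)
    (F : Set (ι₀ → α)) (h : Good F) : Good (reF f F) := by
  constructor
  · intro T x hx
    obtain ⟨y, hy, hy'⟩ := h.flag (f ⁻¹' T) (fun i => x (f i)) (by
      intro i hi j hj
      obtain ⟨y, hy, h1, h2⟩ := hx _ hi _ hj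
      exact ⟨_, hy.1, h1, h2⟩)
    refine ⟨_, extend_mem_reF f hf F y hy, ?_⟩
    intro i hi
    by_cases hr : i ∈ Set.range f
    · obtain ⟨i₀, rfl⟩ := hr
      rw [hf.extend_apply]
      exact hy' i₀ hi
    · rw [(extend_mem_reF f hf F y hy).2 i hr]
      obtain ⟨z, hz, h1, -⟩ := hx i hi i hi
      rw [← h1, hz.2 i hr]
  · intro y hy y' hy' i hi
    by_cases hr : i ∈ Set.range f
    · obtain ⟨i₀, rfl⟩ := hr
      exact h.uniq _ hy.1 _ hy'.1 i₀ (fun j hj => hi _ (fun h => hj (hf h)))
    · rw [hy.2 i hr, hy'.2 i hr]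

open Classical in
/-- the labelled transversal built from a transversal and a label vector -/
noncomputable def lab {δ ε α L : Type} [Zero L] (cen : α → Prop) (y : δ ⊕ ε → α) (a : δ → L) :
    δ ⊕ ε → α × (δ → L)
  | Sum.inl i => (y (Sum.inl i), fun _ => if cen (y (Sum.inl i)) then a i else 0)
  | Sum.inr l => (y (Sum.inr l), a)

theorem lab_fst {δ ε α L : Type} [Zero L] (cen : α → Prop) (y : δ ⊕ ε → α) (a : δ → L)
    (i : δ ⊕ ε) : (lab cen y a i).1 = y i := by
  cases i <;> rfl

/-- blow up of the central points of the dense parts -/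
def labF {δ ε α : Type} (L : Type) [Zero L] (cen : α → Prop) (F : Set (δ ⊕ ε → α)) :
    Set (δ ⊕ ε → α × (δ → L)) :=
  {w | ∃ y ∈ F, ∃ a, w = lab cen y a}

theorem good_lab {δ ε α : Type} (L : Type) [Zero L] [Nontrivial ε] (cen : α → Prop)
    (F : Set (δ ⊕ ε → α)) (h : Good F) : Good (labF L cen F) := by
  classical
  constructor
  · intro T x hx
    obtain ⟨y, hy, hy'⟩ := h.flag T (fun i => (x i).1) (by
      intro i hi j hj
      obtain ⟨w, ⟨y, hy, a, rfl⟩, h1, h2⟩ := hx i hi j hj
      exact ⟨y, hy, by rw [← h1, lab_fst], by rw [← h2, lab_fst]⟩)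
    by_cases hT : ∃ l, Sum.inr l ∈ T
    · obtain ⟨l, hl⟩ := hT
      refine ⟨lab cen y (x (Sum.inr l)).2, ⟨y, hy, _, rfl⟩, ?_⟩
      intro i hi
      obtain ⟨w, ⟨y', -, a, rfl⟩, h1, h2⟩ := hx i hi _ hl
      have ha : (x (Sum.inr l)).2 = a := by rw [← h2]; rfl
      have hi' : y i = y' i := by rw [hy' i hi, ← h1, lab_fst]
      rw [ha, ← h1]
      cases i with
      | inl i => simp only [lab, hi']
      | inr i => simp only [lab, hi']
    · refine ⟨lab cen y (fun i => (x (Sum.inl i)).2 i), ⟨y, hy, _, rfl⟩, ?_⟩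
      intro i hi
      cases i with
      | inr l => exact absurd ⟨l, hi⟩ hT
      | inl i =>
        obtain ⟨w, ⟨y', -, a, rfl⟩, h1, -⟩ := hx _ hi _ hi
        have hi' : y (Sum.inl i) = y' (Sum.inl i) := by rw [hy' _ hi, ← h1, lab_fst]
        rw [← h1]
        simp only [lab, hi', ← h1]
        congr 1
        funext _
        split_ifs <;> rfl
  · rintro w ⟨y, hy, a, rfl⟩ w' ⟨y', hy', a', rfl⟩ i hi
    have h1 : y i = y' i := h.uniq y hy y' hy' i (fun j hj => by
      have := congrArg Prod.fst (hi j hj)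
      rwa [lab_fst, lab_fst] at this)
    have h2 : a = a' := by
      have : ∃ l : ε, Sum.inr l ≠ i := by
        cases i with
        | inl i => exact ⟨Classical.arbitrary ε, by simp⟩
        | inr l =>
          obtain ⟨l', hl'⟩ := exists_ne l
          exact ⟨l', by simpa using hl'⟩
      obtain ⟨l, hl⟩ := this
      exact congrArg Prod.snd (hi _ hl)
    subst h2
    cases i with
    | inl i => simp only [lab, h1]
    | inr i => simp only [lab, h1]

/-- vertices of the doubled graph -/
def Vtx {ι α : Type} (F : Set (ι → α)) : Type :=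
  {v : ι × α × Bool // ∃ y ∈ F, y v.1 = v.2.1}

/-- the doubled graph -/
def gr {ι α : Type} (F : Set (ι → α)) : SimpleGraph (Vtx F) where
  Adj v w := v.1.1 ≠ w.1.1 ∧ ∃ y ∈ F, y v.1.1 = v.1.2.1 ∧ y w.1.1 = w.1.2.1
  symm := ⟨fun v w h => ⟨h.1.symm, by obtain ⟨y, hy, h1, h2⟩ := h.2; exact ⟨y, hy, h2, h1⟩⟩⟩
  loopless := ⟨fun v h => h.1 rfl⟩

theorem clique_inj {ι α : Type} (F : Set (ι → α)) (s : Set (Vtx F)) (hs : (gr F).IsClique s) :
    Set.InjOn (fun v : Vtx F => v.1.1) s := by
  intro v hv w hw h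
  by_contra hne
  exact (hs hv hw hne).1 h

theorem clique_ext {ι α : Type} [Nonempty α] (F : Set (ι → α)) (h : Good F) (s : Set (Vtx F))
    (hs : (gr F).IsClique s) : ∃ y ∈ F, ∀ v ∈ s, y v.1.1 = v.1.2.1 := by
  classical
  have hx : ∀ i : ι, ∃ u : α, ∀ v ∈ s, v.1.1 = i → v.1.2.1 = u := by
    intro i
    by_cases hi : ∃ v ∈ s, v.1.1 = i
    · obtain ⟨v, hv, rfl⟩ := hi
      refine ⟨v.1.2.1, fun w hw hwv => ?_⟩
      rw [clique_inj F s hs hw hv hwv]
    · exact ⟨Classical.arbitrary α, fun v hv h => absurd ⟨v, hv, h⟩ hi⟩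
  choose x hx using hx
  obtain ⟨y, hy, hy'⟩ := h.flag ((fun v : Vtx F => v.1.1) '' s) x (by
    rintro i ⟨v, hv, rfl⟩ j ⟨w, hw, rfl⟩
    by_cases hvw : v = w
    · subst hvw
      obtain ⟨y, hy, h1⟩ := v.2
      exact ⟨y, hy, h1.trans (hx _ v hv rfl), h1.trans (hx _ v hv rfl)⟩
    · obtain ⟨y, hy, h1, h2⟩ := (hs hv hw hvw).2
      exact ⟨y, hy, h1.trans (hx _ v hv rfl), h2.trans (hx _ w hw rfl)⟩)
  exact ⟨y, hy, fun v hv => (hy' _ ⟨v, hv, rfl⟩).trans (hx _ v hv rfl).symm⟩

theorem isWeakPM_gr {ι α : Type} [Fintype ι] [Nonempty α] (F : Set (ι → α)) (h : Good F)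
    (hι : 1 ≤ Fintype.card ι) : IsWeakPM (Fintype.card ι) (gr F) := by
  classical
  constructor
  · intro s hs
    obtain ⟨y, hy, hy'⟩ := clique_ext F h s hs.1
    have hinj := clique_inj F s hs.1
    rw [← Finset.card_image_of_injOn hinj]
    congr 1
    apply Finset.eq_univ_of_forall
    intro i
    by_contra hi
    let v : Vtx F := ⟨(i, y i, false), y, hy, rfl⟩
    have hv : ∀ w ∈ s, (gr F).Adj v w := by
      intro w hw
      refine ⟨fun hh => hi (Finset.mem_image.2 ⟨w, hw, hh.symm⟩), y, hy, rfl, hy' w hw⟩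
    have hc : (gr F).IsClique ((insert v s : Finset (Vtx F)) : Set (Vtx F)) := by
      rw [Finset.coe_insert]
      exact hs.1.insert (fun w hw _ => hv w hw)
    have : insert v s ≤ s := hs.2 hc (Finset.subset_insert _ _)
    exact hi (Finset.mem_image.2 ⟨v, this (Finset.mem_insert_self _ _), rfl⟩)
  · intro s hs
    obtain ⟨y, hy, hy'⟩ := clique_ext F h s hs.1
    have hinj := clique_inj F s hs.1
    have hc : (s.image (fun v : Vtx F => v.1.1))ᶜ.card = 1 := by
      rw [Finset.card_compl, Finset.card_image_of_injOn hinj, hs.2]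
      omega
    obtain ⟨i, hi⟩ := Finset.card_eq_one.1 hc
    have hi' : ∀ j, j ∉ s.image (fun v : Vtx F => v.1.1) ↔ j = i := by
      intro j
      rw [← Finset.mem_compl, hi, Finset.mem_singleton]
    refine ⟨⟨(i, y i, false), y, hy, rfl⟩, ⟨(i, y i, true), y, hy, rfl⟩, ?_, ?_, ?_⟩
    · intro hh
      have := congrArg (fun v : Vtx F => v.1.2.2) hh
      simp at this
    · intro hh
      exact hh.1 rfl
    · ext w
      simp only [Set.mem_ofPred_eq, Set.mem_insert_iff, Set.mem_singleton_iff]
      constructor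
      · intro hw
        have hwi : w.1.1 = i := by
          rw [← hi']
          intro hh
          obtain ⟨v, hv, hvw⟩ := Finset.mem_image.1 hh
          exact (hw v hv).1 hvw
        have hc : (gr F).IsClique (insert w (s : Set (Vtx F))) :=
          hs.1.insert (fun v hv _ => (hw v hv).symm)
        obtain ⟨y', hy'F, hy''⟩ := clique_ext F h _ hc
        have hyy : y i = y' i := by
          apply h.uniq y hy y' hy'F i
          intro j hj
          have : j ∈ s.image (fun v : Vtx F => v.1.1) := by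
            by_contra hh
            exact hj ((hi' j).1 hh)
          obtain ⟨v, hv, rfl⟩ := Finset.mem_image.1 this
          rw [hy' v hv, hy'' v (Set.mem_insert_of_mem _ hv)]
        have hw2 : w.1.2.1 = y i := by
          rw [hyy, ← hwi, hy'' w (Set.mem_insert _ _)]
        obtain ⟨⟨wi, wu, wb⟩, hw'⟩ := w
        simp only at hwi hw2
        subst hwi hw2
        cases wb
        · left; rfl
        · right; rfl
      · have key : ∀ b : Bool, ∀ x ∈ s,
            (gr F).Adj x ⟨(i, y i, b), y, hy, rfl⟩ := by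
          intro b x hx
          refine ⟨fun hh => ?_, y, hy, hy' x hx, rfl⟩
          exact (hi' i).2 rfl (Finset.mem_image.2 ⟨x, hx, hh⟩)
        rintro (rfl | rfl)
        · exact key false
        · exact key true

theorem card_vtx_le {ι α : Type} [Fintype ι] (F : Set (ι → α)) (D : ι → Finset α) (M : ℕ)
    (hD : ∀ y ∈ F, ∀ i, y i ∈ D i) (hM : ∀ i, (D i).card ≤ M) :
    Finite (Vtx F) ∧ Nat.card (Vtx F) ≤ 2 * Fintype.card ι * M := by
  classical
  let E : Finset (ι × α × Bool) :=
    Finset.univ.biUnion (fun i => ({i} : Finset ι) ×ˢ (D i ×ˢ (Finset.univ : Finset Bool)))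
  have hE : E.card ≤ 2 * Fintype.card ι * M := by
    refine Finset.card_biUnion_le.trans ?_
    refine (Finset.sum_le_card_nsmul _ _ (M * 2) ?_).trans ?_
    · intro i _
      simp only [Finset.card_product, Finset.card_singleton, Finset.card_univ, Fintype.card_bool,
        one_mul]
      exact Nat.mul_le_mul_right _ (hM i)
    · simp only [Finset.card_univ, smul_eq_mul]
      apply le_of_eq; ring
  let f : Vtx F → E := fun v => ⟨v.1, by
    obtain ⟨y, hy, h1⟩ := v.2
    refine Finset.mem_biUnion.2 ⟨v.1.1, Finset.mem_univ _, ?_⟩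
    simp only [Finset.mem_product, Finset.mem_singleton, Finset.mem_univ, and_true, true_and]
    rw [← h1]; exact hD y hy _⟩
  have hf : Function.Injective f := by
    intro v w hh
    have h1 : (f v).1 = (f w).1 := congrArg Subtype.val hh
    exact Subtype.ext h1
  refine ⟨Finite.of_injective f hf, (Nat.card_le_card_of_injective f hf).trans ?_⟩
  simpa using hE

theorem card_clique_ge {δ ε α P : Type} [Fintype δ] [Finite P] (F : Set (δ ⊕ ε → α))
    [Finite (Vtx F)] (g : P → δ ⊕ ε → α) (hg : ∀ p, g p ∈ F)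
    (hinj : ∀ p q, (∀ i, g p (Sum.inl i) = g q (Sum.inl i)) → p = q) :
    Nat.card P ≤ ((gr F).cliqueSet (Fintype.card δ)).ncard := by
  classical
  let v : P → δ → Vtx F := fun p i => ⟨(Sum.inl i, g p (Sum.inl i), false), g p, hg p, rfl⟩
  have hv : ∀ p, Function.Injective (v p) := by
    intro p i j hh
    have := congrArg (fun v : Vtx F => v.1.1) hh
    simpa [v] using this
  let f : P → (gr F).cliqueSet (Fintype.card δ) := fun p => ⟨Finset.univ.image (v p), by
    constructor
    · intro a ha b hb hab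
      simp only [Finset.coe_image, Finset.coe_univ, Set.image_univ, Set.mem_range] at ha hb
      obtain ⟨i, rfl⟩ := ha
      obtain ⟨j, rfl⟩ := hb
      refine ⟨fun hh => hab ?_, g p, hg p, rfl, rfl⟩
      have : i = j := by simpa [v] using hh
      rw [this]
    · rw [Finset.card_image_of_injective _ (hv p), Finset.card_univ]⟩
  have hf : Function.Injective f := by
    intro p q hh
    apply hinj
    intro i
    have h1 : Finset.univ.image (v p) = Finset.univ.image (v q) := congrArg Subtype.val hh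
    have h2 : v p i ∈ Finset.univ.image (v q) := h1 ▸ Finset.mem_image_of_mem _ (Finset.mem_univ i)
    obtain ⟨j, -, hj⟩ := Finset.mem_image.1 h2
    have h3 := congrArg Subtype.val hj
    simp only [v, Prod.mk.injEq, Sum.inl.injEq] at h3
    obtain ⟨rfl, h4, -⟩ := h3
    exact h4.symm
  have : Fintype (Vtx F) := Fintype.ofFinite _
  rw [← Nat.card_coe_set_eq]
  exact Nat.card_le_card_of_injective f hf

end Pool.Agent.MP_a04191_co
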