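import Pool.Agent.MP_a04191_co.Defs

namespace Pool.Agent.MP_a04191_co

open Finset

theorem few_edges {V : Type} [Fintype V] [DecidableEq V] (H : SimpleGraph V) [DecidableRel H.Adj]
    (h1 : ∀ x y, H.Adj x y → ∃ z, H.Adj x z ∧ H.Adj y z)
    (h2 : ∀ x y, H.Adj x y → (Finset.univ.filter fun z => H.Adj x z ∧ H.Adj y z).card ≤ 2)
    (ε : ℝ) (hε : 0 < ε) (hn : 2 / SimpleGraph.triangleRemovalBound ε < Fintype.card V) :
    ((Finset.univ.filter fun q : V × V => H.Adj q.1 q.2).card : ℝ) ≤
      32 * ε * (Fintype.card V : ℝ) ^ 2 := by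
  have hδ := SimpleGraph.triangleRemovalBound_pos hε
  have hn0 : (0 : ℝ) < Fintype.card V := lt_trans (by positivity) hn
  have ht : (H.cliqueFinset 3).card ≤ Fintype.card V ^ 2 * 2 := by
    have : H.cliqueFinset 3 ⊆ (Finset.univ.filter fun q : V × V => H.Adj q.1 q.2).biUnion
        fun q => (Finset.univ.filter fun z => H.Adj q.1 z ∧ H.Adj q.2 z).image
          fun z => {q.1, q.2, z} := by
      intro s hs
      obtain ⟨a, b, c, hab, hac, hbc, rfl⟩ :=
        SimpleGraph.is3Clique_iff.1 (SimpleGraph.mem_cliqueFinset_iff.1 hs)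
      refine Finset.mem_biUnion.2 ⟨(a, b), by simpa using hab, Finset.mem_image.2 ⟨c, ?_, rfl⟩⟩
      simp [hac, hbc]
    refine (Finset.card_le_card this).trans (Finset.card_biUnion_le.trans ?_)
    refine (Finset.sum_le_card_nsmul _ _ 2 ?_).trans ?_
    · intro q hq
      exact Finset.card_image_le.trans (h2 _ _ (Finset.mem_filter.1 hq).2)
    · rw [smul_eq_mul]
      refine Nat.mul_le_mul_right _ ((Finset.card_filter_le _ _).trans ?_)
      simp [sq]
  obtain ⟨G', hle, hdec, hG', hfree⟩ := SimpleGraph.triangle_removal (G := H) (ε := ε) (by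
    have a1 : ((H.cliqueFinset 3).card : ℝ) ≤ (Fintype.card V : ℝ) ^ 2 * 2 := by exact_mod_cast ht
    rw [div_lt_iff₀ hδ] at hn
    have a2 : (0 : ℝ) < (Fintype.card V : ℝ) ^ 2 := by positivity
    nlinarith)
  set E := Finset.univ.filter fun q : V × V => H.Adj q.1 q.2 with hE
  set E' := Finset.univ.filter fun q : V × V => G'.Adj q.1 q.2 with hE'
  have hsub : E' ⊆ E := by
    intro q hq
    simp only [hE, hE', Finset.mem_filter, Finset.mem_univ, true_and] at hq ⊢
    exact hle hq
  have c1 : 2 * H.edgeFinset.card = E.card := H.two_mul_card_edgeFinset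
  have c2 : 2 * G'.edgeFinset.card = E'.card := G'.two_mul_card_edgeFinset
  have c3 : (E \ E').card + E'.card = E.card := Finset.card_sdiff_add_card_eq_card hsub
  have c4 : E.card ≤ (E \ E').card * 16 := by
    let S : V × V → Finset V := fun q =>
      insert q.1 (insert q.2 (Finset.univ.filter fun z => H.Adj q.1 z ∧ H.Adj q.2 z))
    have : E ⊆ (E \ E').biUnion fun q => S q ×ˢ S q := by
      rintro ⟨x, y⟩ hq
      have hxy : H.Adj x y := (Finset.mem_filter.1 hq).2
      obtain ⟨z, hxz, hyz⟩ := h1 x y hxy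
      have hnot : ¬ (G'.Adj x y ∧ G'.Adj x z ∧ G'.Adj y z) := fun h =>
        hfree {x, y, z} (SimpleGraph.is3Clique_triple_iff.2 h)
      rw [Finset.mem_biUnion]
      by_cases a1 : G'.Adj x y
      · by_cases a2 : G'.Adj x z
        · have a3 : ¬ G'.Adj y z := fun h => hnot ⟨a1, a2, h⟩
          exact ⟨(y, z), by simp [hE, hE', hyz, a3], by simp [S, hxy.symm, hxz.symm]⟩
        · exact ⟨(x, z), by simp [hE, hE', hxz, a2], by simp [S, hxy, hyz.symm]⟩
      · exact ⟨(x, y), by simp [hE, hE', hxy, a1], by simp [S]⟩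
    refine (Finset.card_le_card this).trans (Finset.card_biUnion_le.trans ?_)
    refine (Finset.sum_le_card_nsmul _ _ 16 ?_).trans (by rw [smul_eq_mul])
    intro q hq
    have hq' : H.Adj q.1 q.2 := (Finset.mem_filter.1 (Finset.mem_sdiff.1 hq).1).2
    have : (S q).card ≤ 4 := by
      refine (Finset.card_insert_le _ _).trans ?_
      have := (Finset.card_insert_le q.2
        (Finset.univ.filter fun z => H.Adj q.1 z ∧ H.Adj q.2 z))
      have := h2 _ _ hq'
      omega
    rw [Finset.card_product]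
    exact Nat.mul_le_mul this this
  have d1 : (2 : ℝ) * H.edgeFinset.card = E.card := by exact_mod_cast c1
  have d2 : (2 : ℝ) * G'.edgeFinset.card = E'.card := by exact_mod_cast c2
  have d3 : ((E \ E').card : ℝ) + E'.card = E.card := by exact_mod_cast c3
  have d4 : (E.card : ℝ) ≤ (E \ E').card * 16 := by exact_mod_cast c4
  push_cast at hG'
  nlinarith

theorem sparse_two (β : ℝ) (hβ : 0 < β) : ∃ n₀ : ℕ, ∀ (V : Type) [Fintype V] (G : SimpleGraph V),
    IsWeakPM 4 G → n₀ ≤ Fintype.card V →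
      ((G.cliqueSet 3).ncard : ℝ) ≤ β * (Fintype.card V : ℝ) ^ 3 := by
  classical
  obtain ⟨n₀, hn₀⟩ := exists_nat_gt (2 / SimpleGraph.triangleRemovalBound (β / 32))
  refine ⟨n₀, fun V _ G hG hn => ?_⟩
  let L : V → SimpleGraph V := fun v =>
    { Adj := fun x y => G.Adj x y ∧ G.Adj v x ∧ G.Adj v y
      symm := ⟨fun x y h => ⟨h.1.symm, h.2.2, h.2.1⟩⟩
      loopless := ⟨fun x h => h.1.ne rfl⟩ }
  have hL : ∀ v, ((Finset.univ.filter fun q : V × V => (L v).Adj q.1 q.2).card : ℝ) ≤
      32 * (β / 32) * (Fintype.card V : ℝ) ^ 2 := by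
    intro v
    have key : ∀ x y, (L v).Adj x y → ∃ u w : V, ∀ z,
        ((L v).Adj x z ∧ (L v).Adj y z) ↔ (z = u ∨ z = w) := by
      intro x y hxy
      obtain ⟨u, w, -, -, h⟩ := hG.2 {v, x, y}
        (SimpleGraph.is3Clique_triple_iff.2 ⟨hxy.2.1, hxy.2.2, hxy.1⟩)
      refine ⟨u, w, fun z => ?_⟩
      have := Set.ext_iff.1 h z
      simp only [Finset.mem_insert, Finset.mem_singleton, forall_eq_or_imp, forall_eq,
        Set.mem_ofPred_eq, Set.mem_insert_iff, Set.mem_singleton_iff] at this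
      rw [← this]
      constructor
      · rintro ⟨a, b⟩
        exact ⟨a.2.2, a.1, b.1⟩
      · rintro ⟨a, b, c⟩
        exact ⟨⟨b, hxy.2.1, a⟩, ⟨c, hxy.2.2, a⟩⟩
    apply few_edges (L v)
    · intro x y hxy
      obtain ⟨u, w, h⟩ := key x y hxy
      exact ⟨u, (h u).2 (Or.inl rfl)⟩
    · intro x y hxy
      obtain ⟨u, w, h⟩ := key x y hxy
      refine le_trans (Finset.card_le_card (t := {u, w}) ?_) Finset.card_le_two
      intro z hz
      simpa using (h z).1 (Finset.mem_filter.1 hz).2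
    · positivity
    · exact hn₀.trans_le (by exact_mod_cast hn)
  have hsub : G.cliqueFinset 3 ⊆ Finset.univ.biUnion fun v =>
      (Finset.univ.filter fun q : V × V => (L v).Adj q.1 q.2).image fun q => {v, q.1, q.2} := by
    intro s hs
    obtain ⟨a, b, c, hab, hac, hbc, rfl⟩ :=
      SimpleGraph.is3Clique_iff.1 (SimpleGraph.mem_cliqueFinset_iff.1 hs)
    exact Finset.mem_biUnion.2 ⟨a, Finset.mem_univ _, Finset.mem_image.2
      ⟨(b, c), Finset.mem_filter.2 ⟨Finset.mem_univ _, hbc, hab, hac⟩, rfl⟩⟩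
  rw [← SimpleGraph.coe_cliqueFinset, Set.ncard_coe_finset]
  have h1 : (G.cliqueFinset 3).card ≤
      ∑ v, (Finset.univ.filter fun q : V × V => (L v).Adj q.1 q.2).card :=
    (Finset.card_le_card hsub).trans (Finset.card_biUnion_le.trans
      (Finset.sum_le_sum fun v _ => Finset.card_image_le))
  have h2 : ((G.cliqueFinset 3).card : ℝ) ≤
      ∑ v, ((Finset.univ.filter fun q : V × V => (L v).Adj q.1 q.2).card : ℝ) := by
    exact_mod_cast h1
  refine h2.trans ((Finset.sum_le_sum fun v _ => hL v).trans (le_of_eq ?_))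
  rw [Finset.sum_const, Finset.card_univ, nsmul_eq_mul]
  ring

end Pool.Agent.MP_a04191_co
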